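import Pool.Agent.H78.Dis.AG

set_option autoImplicit false

/-!
# Module AT of the disproof of MP_c9b280_co Q1: families at all vertices
-/

open Finset Fintype

namespace H78D

open H67Blow (num injs)

lemma prod_roles {X : Type} [Fintype X] (b : X → ℝ) :
    ∏ r : X × Fin 3, b r.1 = ∏ x : X, b x ^ 3 := by
  rw [Fintype.prod_prod_type]
  apply Finset.prod_congr rfl
  intro x _
  simp

open Classical in
theorem stAT_of (hDeg : StDeg) (hCnt : StCnt) (hSB : StSB) : StAT := by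
  intro X _ _ K L lev a hG ε hε
  obtain ⟨x₁, _⟩ := hG.Lne
  have : Nonempty X := ⟨x₁⟩
  have hcX : (0 : ℝ) < card X := by exact_mod_cast Fintype.card_pos
  have hth := th_pos a hG.apos
  set P : ℝ := ∏ x : X, th a x ^ 9 with hP
  have hPpos : 0 < P := Finset.prod_pos (fun x _ => pow_pos (hth x) 9)
  set c₀ : ℝ := 1 / (4 * (3 * card X : ℝ)) with hc₀
  have hc₀pos : 0 < c₀ := by positivity
  set c : ℝ := c₀ * P / 2 with hc
  have hcpos : 0 < c := by positivity
  obtain ⟨W₀, hW₀⟩ := hSB X K L lev a hG ε c hε hcpos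
  refine ⟨W₀, fun W hW => ?_⟩
  obtain ⟨n₀, hn₀⟩ := hDeg X K L lev a hG W
  refine ⟨max n₀ 1, fun V _ hV G hE v => ?_⟩
  have hVn : n₀ ≤ card V := le_trans (le_max_left _ _) hV
  have hV1 : 1 ≤ card V := le_trans (le_max_right _ _) hV
  have hVpos : (0 : ℝ) < card V := by exact_mod_cast hV1
  obtain ⟨r₀, hr₀⟩ := hn₀ V hVn G hE v
  set Pi : ℝ := ∏ r : X × Fin 3, ((W * a r.1 : ℕ) + 1 : ℝ) with hPi
  have hPipos : 0 < Pi := Finset.prod_pos (fun r _ => by positivity)
  set T : ℝ := ∏ r : X × Fin 3, (th a r.1 * card V) ^ (W * a r.1) with hT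
  have hTpos : 0 < T := Finset.prod_pos (fun r _ => pow_pos (mul_pos (hth _) hVpos) _)
  -- the left side of `StDeg`
  have hL : ∏ x : X, (th a x * card V) ^ (3 * (W * a x + 3)) =
      P * (card V : ℝ) ^ (3 * card (X × Fin 3)) * T := by
    have e1 : T = ∏ x : X, ((th a x * card V) ^ (W * a x)) ^ 3 :=
      prod_roles (fun x => (th a x * card V) ^ (W * a x))
    have e2 : (card V : ℝ) ^ (3 * card (X × Fin 3)) = ∏ _x : X, (card V : ℝ) ^ 9 := by
      rw [Finset.prod_const, ← pow_mul, Finset.card_univ, Fintype.card_prod, Fintype.card_fin]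
      congr 1
      ring
    rw [e1, e2, hP, ← Finset.prod_mul_distrib, ← Finset.prod_mul_distrib]
    apply Finset.prod_congr rfl
    intro x _
    rw [← pow_mul, ← mul_pow, ← pow_add]
    congr 1
    ring
  by_cases hex : ∃ g₁ g₂ B, Valid K G g₁ g₂ B ∧
      c / Pi * T ≤ (exts K a W G (Xset K G g₁ g₂ B r₀ v) : ℝ)
  · obtain ⟨g₁, g₂, B, hval, hle⟩ := hex
    obtain ⟨S, hS, hS'⟩ := hW₀ W hW V G hE.1 v r₀ g₁ g₂ B hval hle
    exact ⟨S, r₀.1, hS, hS'⟩
  · exfalso
    push Not at hex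
    have h1 := hCnt X K a W V G v r₀ (c / Pi * T) (by positivity)
      (fun g₁ g₂ B hval => (hex g₁ g₂ B hval).le)
    have h2 := hr₀.trans (le_trans (le_of_eq (by congr!)) h1)
    rw [hL] at h2
    have h3 : Pi * (card V : ℝ) ^ (3 * card (X × Fin 3)) * (c / Pi * T) =
        c * (card V : ℝ) ^ (3 * card (X × Fin 3)) * T := by
      field_simp
    rw [h3, hc] at h2
    have h4 : 0 < c₀ * P * (card V : ℝ) ^ (3 * card (X × Fin 3)) * T := by positivity
    nlinarith [h2, h4]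

end H78D
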