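import Pool.Agent.H78.Dis.Defs

set_option autoImplicit false

/-!
# Module Main of the disproof of MP_c9b280_co Q1: assembly
-/

open Finset Fintype

namespace H78D

open H67Blow (num injs)

/-- `k` vertices with pairwise different neighbourhoods. -/
def Many {V : Type} (G : SimpleGraph V) (k : ℕ) : Prop :=
  ∃ s : Finset V, #s = k ∧ ∀ u ∈ s, ∀ v ∈ s, (∀ w, G.Adj u w ↔ G.Adj v w) → u = v

lemma not_many_comap {m n : ℕ} (G₀ : SimpleGraph (Fin m)) (φ : Fin n → Fin m) :
    ¬ Many (G₀.comap φ) (m + 1) := by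
  rintro ⟨s, hs, hinj⟩
  have h1 : #s ≤ #(univ : Finset (Fin m)) := by
    apply Finset.card_le_card_of_injOn φ (fun _ _ => mem_univ _)
    intro u hu v hv huv
    apply hinj u hu v hv
    intro w
    simp only [SimpleGraph.comap_adj]
    rw [huv]
  rw [Finset.card_univ, Fintype.card_fin, hs] at h1
  omega

lemma many_succ {X : Type} [Fintype X] [DecidableEq X] {K : SimpleGraph X} {L : Finset X}
    {lev a : X → ℕ} (hG : Good K L lev a) {V : Type} {G : SimpleGraph V} {τ : V → X}
    (hS : Str K L G τ) (hsurj : ∀ x, ∃ v, τ v = x) {k : ℕ}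
    (h : Many (G.induce {v | τ v ∈ L}) k) : Many G (k + 1) := by
  classical
  obtain ⟨s, hs, hinj⟩ := h
  obtain ⟨x, hx⟩ := hG.notL
  obtain ⟨u₀, hu₀⟩ := hsurj x
  have hemb : Function.Injective (Subtype.val : {v | τ v ∈ L} → V) := Subtype.val_injective
  have key : ∀ v, τ v ∈ L → ¬ (∀ w, G.Adj u₀ w ↔ G.Adj v w) := by
    intro v hv hw
    have hne : x ≠ τ v := by
      intro h
      rw [h] at hx
      exact hx hv
    have h1 : ∀ z, K.Adj (τ v) z → K.Adj x z := by
      intro z hz
      obtain ⟨w, hwz⟩ := hsurj z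
      have h2 : G.Adj v w := hS.1 v w (by rw [hwz]; exact hz)
      have h3 := (hw w).mpr h2
      rcases hS.2 u₀ w h3 with h4 | ⟨_, h5, _⟩
      · rw [hu₀, hwz] at h4; exact h4
      · rw [hu₀] at h5; exact absurd h5 hx
    obtain ⟨b, c, d, hbc, hbd, hcd, hxb, hyc, hd⟩ := hG.uni x (τ v) hne
    have hxc := h1 c hyc
    have hxd : K.Adj x d := by
      rcases hd with hd | hd
      · exact hd
      · exact h1 d hd
    exact hG.k4 x b c d hxb hxc hxd hbc hbd hcd
  refine ⟨insert u₀ (s.map ⟨Subtype.val, hemb⟩), ?_, ?_⟩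
  · rw [Finset.card_insert_of_notMem, Finset.card_map, hs]
    intro hmem
    rw [Finset.mem_map] at hmem
    obtain ⟨y, _, hy⟩ := hmem
    have h1 : τ y.1 ∈ L := y.2
    have h2 : y.1 = u₀ := hy
    rw [h2, hu₀] at h1
    exact hx h1
  · intro u hu v hv huv
    rw [Finset.mem_insert, Finset.mem_map] at hu hv
    rcases hu with rfl | ⟨u', hu', rfl⟩
    · rcases hv with rfl | ⟨v', hv', rfl⟩
      · rfl
      · exact absurd huv (key v'.1 v'.2)
    · rcases hv with rfl | ⟨v', hv', rfl⟩
      · exact absurd (fun w => (huv w).symm) (key u'.1 u'.2)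
      · have := hinj u' hu' v' hv' (fun w => huv w.1)
        rw [this]

open Classical in
theorem stMain_of (hAT : StAT) (hST : StST) (hEX : StEX) (hTR : StTR) : StMain := by
  intro X _ _ K L lev a hG hF
  obtain ⟨δ, hδ, hTR'⟩ := hTR X K L lev a hG hF
  obtain ⟨x₁, hx₁⟩ := hG.Lne
  have : Nonempty X := ⟨x₁⟩
  have hthpos : ∀ x, 0 < th a x := by
    intro x
    have h1 : 0 < a x := hG.apos x
    have h2 : a x ≤ tot a := by
      unfold tot
      exact Finset.single_le_sum (f := a) (fun _ _ => Nat.zero_le _) (mem_univ x)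
    have h3 : 0 < tot a := lt_of_lt_of_le h1 h2
    unfold th
    have h4 : (0 : ℝ) < a x := by exact_mod_cast h1
    have h5 : (0 : ℝ) < tot a := by exact_mod_cast h3
    positivity
  obtain ⟨θ, hθ, hθle⟩ : ∃ θ : ℝ, 0 < θ ∧ ∀ x, θ ≤ th a x := by
    obtain ⟨x, hx⟩ := Finite.exists_min (th a)
    exact ⟨th a x, hthpos x, hx⟩
  set δ' : ℝ := min δ (θ / 2) with hδ'
  have hδ'pos : 0 < δ' := lt_min hδ (by positivity)
  have hδ'1 : δ' ≤ δ := min_le_left _ _
  have hδ'2 : δ' ≤ θ / 2 := min_le_right _ _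
  obtain ⟨ε, hε, hST'⟩ := hST X K L lev a hG δ' hδ'pos
  obtain ⟨W, hAT'⟩ := hAT X K L lev a hG ε hε
  refine ⟨W, ?_⟩
  obtain ⟨nA, hnA⟩ := hAT' W le_rfl
  -- lower bound for the classes
  have hlow : ∀ (n : ℕ) (x : X) (c : ℝ), |c - th a x * n| ≤ δ' * n → θ / 2 * n ≤ c := by
    intro n x c h
    have h1 := (abs_le.mp h).1
    have h2 := hθle x
    have h3 : (0 : ℝ) ≤ n := Nat.cast_nonneg n
    have h4 : θ * n ≤ th a x * n := mul_le_mul_of_nonneg_right h2 h3
    have h5 : δ' * n ≤ θ / 2 * n := mul_le_mul_of_nonneg_right hδ'2 h3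
    linarith
  have hceil : ∀ N : ℕ, ∃ M : ℕ, ∀ n : ℕ, M ≤ n → (N : ℝ) ≤ θ / 2 * n := by
    intro N
    obtain ⟨M, hM⟩ := exists_nat_ge ((N : ℝ) / (θ / 2))
    refine ⟨M, fun n hn => ?_⟩
    have h1 : (N : ℝ) / (θ / 2) ≤ n := hM.trans (by exact_mod_cast hn)
    rw [div_le_iff₀ (by positivity)] at h1
    linarith
  obtain ⟨M, hM⟩ := hceil (card (HV a W))
  -- the structure of extremal graphs
  have hstr : ∀ (V : Type) [Fintype V], max (max nA M) 1 ≤ card V → ∀ G : SimpleGraph V,
      Ext (HG K a W) G → ∃ τ : V → X, Str K L G τ ∧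
        ∀ x, |(#(univ.filter (fun v => τ v = x)) : ℝ) - th a x * card V| ≤ δ' * card V := by
    intro V _ hV G hE
    have hVA : nA ≤ card V := le_trans (le_trans (le_max_left _ _) (le_max_left _ _)) hV
    have hVM : M ≤ card V := le_trans (le_trans (le_max_right _ _) (le_max_left _ _)) hV
    have hV1 : 1 ≤ card V := le_trans (le_max_right _ _) hV
    have : Nonempty V := Fintype.card_pos_iff.mp hV1
    obtain ⟨τ, hτ, hsz⟩ := hST' V G hE.1 (fun v => hnA V hVA G hE v)
    have hsz' : ∀ x, |(#(univ.filter (fun v => τ v = x)) : ℝ) - th a x * card V| ≤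
        δ' * card V := by
      intro x
      refine le_trans (le_of_eq ?_) (hsz x)
      congr!
    refine ⟨τ, ⟨?_, hτ⟩, hsz'⟩
    apply hEX X K L lev a hG W V G τ hE hτ
    intro x
    have h1 := (hM _ hVM).trans (hlow _ x _ (hsz' x))
    have h2 : card (HV a W) ≤ #(univ.filter (fun v => τ v = x)) := by exact_mod_cast h1
    convert h2
  obtain ⟨n₁, hn₁⟩ := hTR' W (max (max nA M) 1) (by
    intro V _ hV G hE
    obtain ⟨τ, h1, h2⟩ := hstr V hV G hE
    refine ⟨τ, h1, fun x => ?_⟩
    refine le_trans (le_trans (le_of_eq ?_) (h2 x)) ?_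
    · congr!
    · exact mul_le_mul_of_nonneg_right hδ'1 (Nat.cast_nonneg _))
  -- many neighbourhoods
  have hmany : ∀ k : ℕ, ∃ N : ℕ, ∀ (V : Type) [Fintype V], N ≤ card V → ∀ G : SimpleGraph V,
      Ext (HG K a W) G → Many G k := by
    intro k
    induction k with
    | zero => exact ⟨0, fun V _ _ G _ => ⟨∅, by simp, by simp⟩⟩
    | succ k ih =>
      obtain ⟨N, hN⟩ := ih
      obtain ⟨M', hM'⟩ := hceil N
      refine ⟨max (max (max (max nA M) 1) n₁) M', fun V _ hV G hE => ?_⟩
      have hV0 : max (max nA M) 1 ≤ card V :=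
        le_trans (le_trans (le_max_left _ _) (le_max_left _ _)) hV
      have hVn₁ : n₁ ≤ card V := le_trans (le_trans (le_max_right _ _) (le_max_left _ _)) hV
      have hVM' : M' ≤ card V := le_trans (le_max_right _ _) hV
      have hV1 : 1 ≤ card V := le_trans (le_max_right _ _) hV0
      obtain ⟨τ, hτ, hsz⟩ := hstr V hV0 G hE
      have hEx := hn₁ V hVn₁ G τ hE hτ (by
        intro x
        refine le_trans (le_trans (le_of_eq ?_) (hsz x)) ?_
        · congr!
        · exact mul_le_mul_of_nonneg_right hδ'1 (Nat.cast_nonneg _))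
      have hcl : ∀ x, θ / 2 * card V ≤ (#(univ.filter (fun v => τ v = x)) : ℝ) :=
        fun x => hlow _ x _ (hsz x)
      have hsurj : ∀ x, ∃ v, τ v = x := by
        intro x
        have h1 : (0 : ℝ) < (#(univ.filter (fun v => τ v = x)) : ℝ) := by
          refine lt_of_lt_of_le ?_ (hcl x)
          have : (0 : ℝ) < card V := by exact_mod_cast hV1
          positivity
        have h2 : 0 < #(univ.filter (fun v => τ v = x)) := by exact_mod_cast h1
        obtain ⟨v, hv⟩ := Finset.card_pos.mp h2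
        exact ⟨v, (Finset.mem_filter.mp hv).2⟩
      apply many_succ hG hτ hsurj
      refine hN _ ?_ _ hEx
      have h1 : (N : ℝ) ≤ (#(univ.filter (fun v => τ v = x₁)) : ℝ) :=
        (hM' _ hVM').trans (hcl x₁)
      have h2 : N ≤ #(univ.filter (fun v => τ v = x₁)) := by exact_mod_cast h1
      refine h2.trans ?_
      rw [← Fintype.card_coe]
      refine Fintype.card_le_of_injective (fun v => ⟨v.1, ?_⟩) ?_
      · have := (Finset.mem_filter.mp v.2).2
        change τ v.1 ∈ L
        rw [this]; exact hx₁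
      · intro u v huv
        have := congrArg Subtype.val huv
        exact Subtype.ext this
  intro m
  obtain ⟨N, hN⟩ := hmany (m + 1)
  refine ⟨N, fun n hn G₀ φ hE => ?_⟩
  exact not_many_comap G₀ φ (hN (Fin n) (by rw [Fintype.card_fin]; exact hn) _ hE)

end H78D
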