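import Pool.Agent.H78.Dis.TL
import Pool.Agent.H78.Dis.Ext

set_option autoImplicit false

/-! # Module SB : stability of the product bound -/

open Finset Fintype

namespace H78D

/-- polynomial against exponential -/
lemma poly_exp {X : Type} [Fintype X] (a : X → ℕ) (ρ c : ℝ) (hρ : 0 ≤ ρ) (hρ1 : ρ < 1)
    (hc : 0 < c) : ∃ W₀ : ℕ, ∀ W ≥ W₀,
      (∏ r : X × Fin 3, ((W * a r.1 : ℕ) + 1 : ℝ)) * ρ ^ W < c := by
  classical
  set N := card (X × Fin 3) with hN
  have h1 := tendsto_pow_const_mul_const_pow_of_abs_lt_one N (r := ρ)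
    (by rw [abs_of_nonneg hρ]; exact hρ1)
  have h2 := h1.const_mul (((tot a : ℝ) + 1) ^ N)
  rw [mul_zero] at h2
  have h3 := h2.eventually (gt_mem_nhds hc)
  obtain ⟨W₁, hW₁⟩ := Filter.eventually_atTop.mp h3
  refine ⟨max W₁ 1, fun W hW => ?_⟩
  have hW1 : W₁ ≤ W := le_trans (le_max_left _ _) hW
  have hW2 : 1 ≤ W := le_trans (le_max_right _ _) hW
  refine lt_of_le_of_lt ?_ (hW₁ W hW1)
  rw [← mul_assoc]
  apply mul_le_mul_of_nonneg_right _ (pow_nonneg hρ _)
  rw [← mul_pow]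
  calc ∏ r : X × Fin 3, ((W * a r.1 : ℕ) + 1 : ℝ)
      ≤ ∏ _r : X × Fin 3, (((tot a : ℝ) + 1) * W) := by
        apply Finset.prod_le_prod
        · intro r _; positivity
        · intro r _
          have h4 : (a r.1 : ℝ) ≤ tot a := by
            have : a r.1 ≤ tot a := by
              unfold tot
              exact Finset.single_le_sum (f := a) (fun _ _ => Nat.zero_le _) (mem_univ r.1)
            exact_mod_cast this
          have h5 : (1 : ℝ) ≤ W := by exact_mod_cast hW2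
          have h6 : (0 : ℝ) ≤ (W : ℝ) := by linarith
          push_cast
          nlinarith [mul_le_mul_of_nonneg_left h4 h6]
    _ = (((tot a : ℝ) + 1) * W) ^ N := by rw [Finset.prod_const, Finset.card_univ]

lemma le_exp_sqrt {t : ℝ} (ht : 0 ≤ t) : t ≤ Real.exp (2 * (Real.sqrt t - 1)) := by
  have h1 : Real.sqrt t ≤ Real.exp (Real.sqrt t - 1) := by
    have := Real.add_one_le_exp (Real.sqrt t - 1)
    linarith
  calc t = Real.sqrt t ^ 2 := (Real.sq_sqrt ht).symm
    _ ≤ (Real.exp (Real.sqrt t - 1)) ^ 2 := pow_le_pow_left₀ (Real.sqrt_nonneg t) h1 2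
    _ = _ := by
      rw [← Real.exp_nat_mul]
      push_cast
      rfl

variable {X : Type} [Fintype X] [DecidableEq X] {V : Type} [Fintype V]
variable {K : SimpleGraph X} {L : Finset X} {lev a : X → ℕ}
variable {G : SimpleGraph V} {g₁ g₂ : X × Fin 3 → V} {B : Finset (X × Fin 3)}
variable {r₀ : X × Fin 3} {v : V}

/-- stability of the weighted AM-GM inequality -/
lemma gibbs (a : X → ℕ) (ha : ∀ x, 0 < a x) (W : ℕ) (n : ℝ) (hn : 0 < n)
    (f : X × Fin 3 → ℝ) (hf : ∀ r, 0 ≤ f r) (hsum : ∑ r, f r ≤ 3 * n)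
    (κ : ℝ) (hκ : 0 < κ) (hκ1 : κ ≤ 1) (r : X × Fin 3)
    (hr : f r ≤ (1 - κ) * (th a r.1 * n)) :
    ∏ s : X × Fin 3, f s ^ (W * a s.1) ≤
      (∏ s : X × Fin 3, (th a s.1 * n) ^ (W * a s.1)) * (Real.exp (-(κ ^ 2 / 4))) ^ W := by
  have : Nonempty X := ⟨r.1⟩
  have hA : (0 : ℝ) < tot a := by exact_mod_cast tot_pos a ha
  have hax : ∀ x, (0 : ℝ) < a x := fun x => by exact_mod_cast ha x
  have hden : ∀ s : X × Fin 3, 0 < th a s.1 * n := fun s => mul_pos (th_pos a ha _) hn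
  set t : X × Fin 3 → ℝ := fun s => f s / (th a s.1 * n) with ht
  have ht0 : ∀ s, 0 ≤ t s := fun s => div_nonneg (hf s) (hden s).le
  have hft : ∀ s, f s = (th a s.1 * n) * t s := by
    intro s
    rw [ht]
    exact (mul_div_cancel₀ _ (hden s).ne').symm
  have h1 : ∏ s : X × Fin 3, f s ^ (W * a s.1) =
      (∏ s : X × Fin 3, (th a s.1 * n) ^ (W * a s.1)) * ∏ s : X × Fin 3, t s ^ (W * a s.1) := by
    rw [← Finset.prod_mul_distrib]
    refine Finset.prod_congr rfl (fun s _ => ?_)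
    rw [← mul_pow, ← hft s]
  rw [h1]
  apply mul_le_mul_of_nonneg_left _ (Finset.prod_nonneg (fun s _ => pow_nonneg (hden s).le _))
  have h2 : ∏ s : X × Fin 3, t s ^ (W * a s.1) ≤
      ∏ s : X × Fin 3, Real.exp ((W : ℝ) * (a s.1 * (2 * (Real.sqrt (t s) - 1)))) := by
    apply Finset.prod_le_prod
    · intro s _; exact pow_nonneg (ht0 s) _
    · intro s _
      calc t s ^ (W * a s.1) ≤ (Real.exp (2 * (Real.sqrt (t s) - 1))) ^ (W * a s.1) :=
            pow_le_pow_left₀ (ht0 s) (le_exp_sqrt (ht0 s)) _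
        _ = _ := by
          rw [← Real.exp_nat_mul]
          push_cast
          ring_nf
  refine h2.trans ?_
  rw [← Real.exp_sum, ← Real.exp_nat_mul, ← Finset.mul_sum]
  apply Real.exp_le_exp.mpr
  apply mul_le_mul_of_nonneg_left _ (Nat.cast_nonneg _)
  -- now the sum
  have h3 : ∀ s, (a s.1 : ℝ) * (2 * (Real.sqrt (t s) - 1)) =
      (a s.1 : ℝ) * t s - a s.1 - a s.1 * (Real.sqrt (t s) - 1) ^ 2 := by
    intro s
    have := Real.sq_sqrt (ht0 s)
    nlinarith [this]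
  rw [Finset.sum_congr rfl (fun s _ => h3 s), Finset.sum_sub_distrib, Finset.sum_sub_distrib]
  have h4 : ∑ s : X × Fin 3, (a s.1 : ℝ) * t s ≤ 3 * tot a := by
    have h5 : ∀ s : X × Fin 3, (a s.1 : ℝ) * t s = (tot a : ℝ) / n * f s := by
      intro s
      have h2 : (a s.1 : ℝ) ≠ 0 := (hax _).ne'
      simp only [ht]
      unfold th
      field_simp
    rw [Finset.sum_congr rfl (fun s _ => h5 s), ← Finset.mul_sum]
    calc (tot a : ℝ) / n * ∑ s, f s ≤ (tot a : ℝ) / n * (3 * n) := by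
          apply mul_le_mul_of_nonneg_left hsum
          positivity
      _ = 3 * tot a := by field_simp
  have h6 : ∑ s : X × Fin 3, (a s.1 : ℝ) = 3 * tot a := by
    rw [Fintype.sum_prod_type]
    simp only [sum_const, card_univ, Fintype.card_fin, nsmul_eq_mul]
    rw [← Finset.mul_sum]
    unfold tot
    push_cast
    ring
  have h7 : κ ^ 2 / 4 ≤ ∑ s : X × Fin 3, (a s.1 : ℝ) * (Real.sqrt (t s) - 1) ^ 2 := by
    have h8 : (a r.1 : ℝ) * (Real.sqrt (t r) - 1) ^ 2 ≤
        ∑ s : X × Fin 3, (a s.1 : ℝ) * (Real.sqrt (t s) - 1) ^ 2 :=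
      Finset.single_le_sum (f := fun s : X × Fin 3 => (a s.1 : ℝ) * (Real.sqrt (t s) - 1) ^ 2)
        (fun s _ => mul_nonneg (hax _).le (sq_nonneg _)) (mem_univ r)
    refine le_trans ?_ h8
    have h9 : t r ≤ 1 - κ := by
      simp only [ht]
      rw [div_le_iff₀ (hden r)]
      exact hr
    have h10 : Real.sqrt (t r) ≤ 1 - κ / 2 := by
      rw [Real.sqrt_le_left (by linarith)]
      nlinarith [sq_nonneg κ]
    have h11 : κ ^ 2 / 4 ≤ (Real.sqrt (t r) - 1) ^ 2 := by
      nlinarith [h10]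
    have h12 : (1 : ℝ) ≤ a r.1 := by exact_mod_cast ha r.1
    nlinarith [sq_nonneg (Real.sqrt (t r) - 1)]
  linarith

open Classical in
/-- the common part of the three sets over `x`. -/
noncomputable def SS (K : SimpleGraph X) (G : SimpleGraph V) (g₁ g₂ : X × Fin 3 → V)
    (r₀ : X × Fin 3) (v : V) (x : X) : Finset V :=
  univ.filter (fun u => ∀ l : Fin 3, u ∈ Xset K G g₁ g₂ ∅ r₀ v (x, l))

lemma mem_SS {x : X} {u : V} : u ∈ SS K G g₁ g₂ r₀ v x ↔
    ∀ l : Fin 3, u ∈ Xset K G g₁ g₂ ∅ r₀ v (x, l) := by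
  simp [SS]

lemma SS_card (hK : Good K L lev a) (hG : G.CliqueFree 4) (hv : Valid K G g₁ g₂ ∅) (κ : ℝ)
    (hκ : 0 ≤ κ)
    (hlow : ∀ r : X × Fin 3, (1 - κ) * (th a r.1 * card V) ≤ #(Xset K G g₁ g₂ ∅ r₀ v r)) (x : X) :
    (th a x - 4 * κ) * card V ≤ #(SS K G g₁ g₂ r₀ v x) := by
  classical
  have : Nonempty X := ⟨x⟩
  set bad : Finset V := univ.filter (fun u => #(typ K G g₁ g₂ ∅ r₀ v univ u) ≤ 2) with hbad
  have hcard3 : ∀ u, #(typ K G g₁ g₂ ∅ r₀ v univ u) ≤ 3 := fun u =>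
    typ_card hK hG hv univ (by simp) u
  have h1 : ∑ u : V, #(typ K G g₁ g₂ ∅ r₀ v univ u) + #(bad) ≤ 3 * card V := by
    have h2 : #(bad) = ∑ u : V, if #(typ K G g₁ g₂ ∅ r₀ v univ u) ≤ 2 then 1 else 0 := by
      rw [hbad, Finset.card_filter]
    rw [h2, ← Finset.sum_add_distrib]
    calc ∑ u : V, (#(typ K G g₁ g₂ ∅ r₀ v univ u) +
          if #(typ K G g₁ g₂ ∅ r₀ v univ u) ≤ 2 then 1 else 0) ≤ ∑ _u : V, 3 := by
          apply Finset.sum_le_sum
          intro u _
          have := hcard3 u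
          split_ifs with h <;> omega
      _ = 3 * card V := by rw [Finset.sum_const, Finset.card_univ]; ring
  have h3 : ∑ r : X × Fin 3, #(Xset K G g₁ g₂ ∅ r₀ v r) =
      ∑ u : V, #(typ K G g₁ g₂ ∅ r₀ v univ u) := by
    have h4 : ∑ r : X × Fin 3, #(Xset K G g₁ g₂ ∅ r₀ v r) =
        ∑ r ∈ (univ : Finset X) ×ˢ (univ : Finset (Fin 3)), #(Xset K G g₁ g₂ ∅ r₀ v r) := by
      rw [Finset.univ_product_univ]
    rw [h4, sum_typ]
  have h5 : 3 * (1 - κ) * card V ≤ (∑ r : X × Fin 3, #(Xset K G g₁ g₂ ∅ r₀ v r) : ℕ) := by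
    push_cast
    calc 3 * (1 - κ) * card V = ∑ r : X × Fin 3, (1 - κ) * (th a r.1 * card V) := by
          rw [Fintype.sum_prod_type]
          simp only [sum_const, card_univ, Fintype.card_fin, nsmul_eq_mul]
          rw [← Finset.mul_sum, ← Finset.mul_sum, ← Finset.sum_mul, th_sum a hK.apos]
          push_cast
          ring
      _ ≤ _ := Finset.sum_le_sum (fun r _ => hlow r)
  have h6 : (#(bad) : ℝ) ≤ 3 * κ * card V := by
    have h7 : ((∑ r : X × Fin 3, #(Xset K G g₁ g₂ ∅ r₀ v r) : ℕ) : ℝ) + #(bad) ≤ 3 * card V := by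
      rw [h3]
      exact_mod_cast h1
    nlinarith [h5, h7]
  have h8 : Xset K G g₁ g₂ ∅ r₀ v (x, 0) ⊆ SS K G g₁ g₂ r₀ v x ∪ bad := by
    intro u hu
    rw [Finset.mem_union]
    by_cases hS : u ∈ SS K G g₁ g₂ r₀ v x
    · exact Or.inl hS
    · right
      rw [hbad, Finset.mem_filter]
      refine ⟨mem_univ _, ?_⟩
      rcases typ_cases hK hG hv univ (by simp) u (r₀ := r₀) (v := v) with ⟨x', hx'⟩ | h
      · have hx : x = x' := hx' (x, 0) (mem_typ.mpr ⟨mem_univ _, hu⟩)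
        subst hx
        rw [mem_SS] at hS
        push Not at hS
        obtain ⟨l, hl⟩ := hS
        have hsub : typ K G g₁ g₂ ∅ r₀ v univ u ⊆
            (({x} : Finset X) ×ˢ (univ : Finset (Fin 3))).erase (x, l) := by
          intro r hr
          rw [Finset.mem_erase, Finset.mem_product]
          refine ⟨?_, ?_, mem_univ _⟩
          · rintro rfl
            exact hl (mem_typ.mp hr).2
          · rw [Finset.mem_singleton]
            exact hx' r hr
        refine (Finset.card_le_card hsub).trans ?_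
        rw [Finset.card_erase_of_mem (by simp)]
        simp
      · exact h
  have h9 : (#(Xset K G g₁ g₂ ∅ r₀ v (x, 0)) : ℝ) ≤ #(SS K G g₁ g₂ r₀ v x) + #(bad) := by
    have := (Finset.card_le_card h8).trans (Finset.card_union_le _ _)
    exact_mod_cast this
  have h10 := hlow (x, 0)
  simp only at h10
  have h11 : th a x ≤ 1 := by
    rw [← th_sum a hK.apos]
    exact Finset.single_le_sum (f := th a) (fun y _ => (th_pos a hK.apos y).le) (mem_univ x)
  have h12 : (0 : ℝ) ≤ card V := Nat.cast_nonneg _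
  have h13 : κ * (th a x * card V) ≤ κ * card V := by
    apply mul_le_mul_of_nonneg_left _ hκ
    nlinarith
  nlinarith [h6, h9, h10, h13]

open Classical in
theorem stSB : StSB := by
  intro X _ _ K L lev a hK ε c hε hc
  obtain ⟨x₁, _⟩ := hK.Lne
  have : Nonempty X := ⟨x₁⟩
  -- constants
  set κ : ℝ := min (ε / 4) 1 with hκdef
  have hκ : 0 < κ := lt_min (by positivity) one_pos
  have hκ1 : κ ≤ 1 := min_le_right _ _
  have hκε : 4 * κ ≤ ε := by
    have := min_le_left (ε / 4) 1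
    rw [← hκdef] at this
    linarith
  set ε' : ℝ := min ε (1 / 2) with hε'def
  have hε' : 0 < ε' := lt_min hε (by norm_num)
  have hε'1 : ε' ≤ 1 / 2 := min_le_right _ _
  have hε'2 : ε' ≤ ε := min_le_left _ _
  set ρ : ℝ := max (max (Real.exp (-(κ ^ 2 / 4))) (1 - ε')) ((2 : ℝ) ^ (-(1 : ℝ) / 2)) with hρdef
  have hρ1 : Real.exp (-(κ ^ 2 / 4)) ≤ ρ := le_trans (le_max_left _ _) (le_max_left _ _)
  have hρ2 : 1 - ε' ≤ ρ := le_trans (le_max_right _ _) (le_max_left _ _)
  have hρ3 : (2 : ℝ) ^ (-(1 : ℝ) / 2) ≤ ρ := le_max_right _ _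
  have hρ0 : 0 ≤ ρ := le_trans (Real.exp_pos _).le hρ1
  have hρlt : ρ < 1 := by
    refine max_lt (max_lt ?_ ?_) ?_
    · rw [Real.exp_lt_one_iff]
      have : 0 < κ ^ 2 := by positivity
      linarith
    · linarith
    · apply Real.rpow_lt_one_of_one_lt_of_neg <;> norm_num
  obtain ⟨W₀, hW₀⟩ := poly_exp a ρ c hρ0 hρlt hc
  refine ⟨W₀, fun W hW V _ G hG v r₀ g₁ g₂ B hv hle => ?_⟩
  have hn1 : 0 < card V := by
    have : Nonempty V := ⟨v⟩
    exact Fintype.card_pos
  have hn : (0 : ℝ) < card V := by exact_mod_cast hn1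
  set Pi : ℝ := ∏ r : X × Fin 3, ((W * a r.1 : ℕ) + 1 : ℝ) with hPi
  have hPipos : 0 < Pi := Finset.prod_pos (fun r _ => by positivity)
  set T : ℝ := ∏ r : X × Fin 3, (th a r.1 * card V) ^ (W * a r.1) with hT
  have hTpos : 0 < T := Finset.prod_pos (fun r _ => pow_pos (mul_pos (th_pos a hK.apos _) hn) _)
  -- small products are impossible
  have hsmall : ¬ ((exts K a W G (Xset K G g₁ g₂ B r₀ v) : ℝ) ≤ T * ρ ^ W) := by
    intro h
    have h1 := hle.trans h
    have h2 := hW₀ W hW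
    rw [← hPi] at h2
    have h3 : c / Pi * T ≤ ρ ^ W * T := by linarith
    have h4 : c / Pi ≤ ρ ^ W := le_of_mul_le_mul_right h3 hTpos
    rw [div_le_iff₀ hPipos] at h4
    linarith
  have hexts : (exts K a W G (Xset K G g₁ g₂ B r₀ v) : ℝ) ≤
      ∏ r : X × Fin 3, (#(Xset K G g₁ g₂ B r₀ v r) : ℝ) ^ (W * a r.1) := by
    exact_mod_cast exts_le K a W G (Xset K G g₁ g₂ B r₀ v)
  have hTL := (stTL X K L lev a hK V G hG W v r₀ g₁ g₂ B hv).2
  -- step 0
  have hB : B = ∅ := by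
    by_contra hB
    apply hsmall
    refine hexts.trans (hTL.trans ?_)
    rw [if_neg hB]
    apply mul_le_mul_of_nonneg_left _ hTpos.le
    have h1 : (2 : ℝ) ^ (-(W : ℝ) / 2) = ((2 : ℝ) ^ (-(1 : ℝ) / 2)) ^ W := by
      rw [← Real.rpow_natCast, ← Real.rpow_mul (by norm_num)]
      congr 1
      ring
    rw [h1]
    exact pow_le_pow_left₀ (by positivity) hρ3 _
  subst hB
  have hPB := prod_bound_empty hK hG hv W (r₀ := r₀) (v := v)
  -- step 1
  have hlow : ∀ r : X × Fin 3, (1 - κ) * (th a r.1 * card V) ≤ #(Xset K G g₁ g₂ ∅ r₀ v r) := by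
    intro r
    by_contra hlt
    push Not at hlt
    apply hsmall
    refine hexts.trans ?_
    refine (gibbs a hK.apos W (card V) hn (fun r => (#(Xset K G g₁ g₂ ∅ r₀ v r) : ℝ))
      (fun r => Nat.cast_nonneg _) ?_ κ hκ hκ1 r hlt.le).trans ?_
    · exact_mod_cast sum_Xset_le hK hG hv
    · apply mul_le_mul_of_nonneg_left _ hTpos.le
      exact pow_le_pow_left₀ (Real.exp_pos _).le hρ1 _
  -- the family
  refine ⟨SS K G g₁ g₂ r₀ v, ⟨?_, ?_, ?_⟩, ?_⟩
  · intro x y hxy
    rw [Finset.disjoint_left]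
    intro u hx hy
    rw [mem_SS] at hx hy
    have := claimA hK hG hv hxy (hx 0) (hy 1)
    exact absurd this (by decide)
  · intro x
    refine le_trans ?_ (SS_card hK hG hv κ hκ.le hlow x)
    apply mul_le_mul_of_nonneg_right _ hn.le
    linarith
  · intro x y hxy
    by_contra hlt
    push Not at hlt
    apply hsmall
    set S0 := Xset K G g₁ g₂ ∅ r₀ v (x, 0) with hS0
    set S1 := Xset K G g₁ g₂ ∅ r₀ v (y, 1) with hS1
    set NE := (SS K G g₁ g₂ r₀ v x ×ˢ SS K G g₁ g₂ r₀ v y).filter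
      (fun p => ¬ G.Adj p.1 p.2) with hNE
    set E := (S0 ×ˢ S1).filter (fun p => G.Adj p.1 p.2) with hE
    have hdisj : Disjoint E NE := by
      rw [Finset.disjoint_left]
      intro p h1 h2
      rw [hE, Finset.mem_filter] at h1
      rw [hNE, Finset.mem_filter] at h2
      exact h2.2 h1.2
    have hsub : E ∪ NE ⊆ S0 ×ˢ S1 := by
      apply Finset.union_subset (Finset.filter_subset _ _)
      intro p hp
      rw [hNE, Finset.mem_filter, Finset.mem_product] at hp
      rw [Finset.mem_product]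
      exact ⟨mem_SS.mp hp.1.1 0, mem_SS.mp hp.1.2 1⟩
    have hcard : #E + #NE ≤ #S0 * #S1 := by
      rw [← Finset.card_union_of_disjoint hdisj, ← Finset.card_product]
      exact Finset.card_le_card hsub
    have hS0n : (#S0 : ℝ) ≤ card V := by exact_mod_cast Finset.card_le_univ S0
    have hS1n : (#S1 : ℝ) ≤ card V := by exact_mod_cast Finset.card_le_univ S1
    have hcard' : (#E : ℝ) + #NE ≤ #S0 * #S1 := by exact_mod_cast hcard
    have hprodn : (#S0 : ℝ) * #S1 ≤ (card V : ℝ) ^ 2 := by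
      rw [sq]
      exact mul_le_mul hS0n hS1n (Nat.cast_nonneg _) hn.le
    have hlt' : ε * (card V : ℝ) ^ 2 < #NE := by
      refine lt_of_lt_of_le hlt (le_of_eq ?_)
      congr!
    have hpp : (0 : ℝ) < #S0 * #S1 := by
      have : 0 < ε * (card V : ℝ) ^ 2 := by positivity
      have : (0 : ℝ) ≤ #E := Nat.cast_nonneg _
      linarith
    have hEb : (#E : ℝ) ≤ (1 - ε') * (#S0 * #S1) := by
      have h1 : ε' * (#S0 * #S1 : ℝ) ≤ ε * (card V : ℝ) ^ 2 :=
        mul_le_mul hε'2 hprodn hpp.le hε.le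
      linarith
    have hpair := exts_pair K a W G (Xset K G g₁ g₂ ∅ r₀ v) (x, 0) (y, 1)
      (⟨hxy, by simp⟩) (hK.apos x) (hK.apos y) E (by
        intro u hu w hw huw
        rw [hE, Finset.mem_filter, Finset.mem_product]
        exact ⟨⟨hu, hw⟩, huw⟩)
    have hpair' : (exts K a W G (Xset K G g₁ g₂ ∅ r₀ v) : ℝ) * (#S0 * #S1) ^ W ≤
        (#E : ℝ) ^ W * ∏ r : X × Fin 3, (#(Xset K G g₁ g₂ ∅ r₀ v r) : ℝ) ^ (W * a r.1) := by
      exact_mod_cast hpair
    have h2 : (exts K a W G (Xset K G g₁ g₂ ∅ r₀ v) : ℝ) * (#S0 * #S1) ^ W ≤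
        (T * ρ ^ W) * (#S0 * #S1) ^ W := by
      refine hpair'.trans ?_
      calc (#E : ℝ) ^ W * ∏ r : X × Fin 3, (#(Xset K G g₁ g₂ ∅ r₀ v r) : ℝ) ^ (W * a r.1)
          ≤ ((1 - ε') * (#S0 * #S1)) ^ W * T := by
            apply mul_le_mul _ hPB
            · exact Finset.prod_nonneg (fun r _ => pow_nonneg (Nat.cast_nonneg _) _)
            · exact pow_nonneg (mul_nonneg (by linarith) hpp.le) _
            · exact pow_le_pow_left₀ (Nat.cast_nonneg _) hEb _
        _ ≤ (ρ * (#S0 * #S1)) ^ W * T := by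
            apply mul_le_mul_of_nonneg_right _ hTpos.le
            apply pow_le_pow_left₀ (mul_nonneg (by linarith) hpp.le)
            exact mul_le_mul_of_nonneg_right hρ2 hpp.le
        _ = _ := by rw [mul_pow]; ring
    exact le_of_mul_le_mul_right h2 (pow_pos hpp _)
  · intro y hy u hu
    obtain ⟨l, hl, _⟩ := exists_third r₀.2 r₀.2
    have h1 := mem_SS.mp hu l
    exact ((mem_Xset.mp h1).2.2 ⟨hy.symm, hl⟩).symm

end H78D
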